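import Pool.Agent.Q251.LA.Fac
import Pool.Agent.Y423.LA.Top
import Pool.Agent.H150R2.Konig

/-!
# Colourings of regular graphs for the blow-ups
-/

set_option autoImplicit false

namespace Pool.Agent.Q251.LA

open Finset SimpleGraph

open Classical in
/-- Petersen: even degree. -/
theorem col_even {V : Type} [Fintype V] (G : SimpleGraph V) (k : ℕ) [NeZero k]
    (hdeg : ∀ v, (G.neighborSet v).ncard = 2 * k) :
    ∃ f : V → V → Unit → ZMod k, (∀ v u e, f v u e = f u v e) ∧
      ∀ v i, (univ.filter (fun p : V × Unit => G.Adj v p.1 ∧ f v p.1 p.2 = i)).card = 2 := by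
  obtain ⟨H0, h1, h2⟩ := Pool.Agent.Y423.LA.two_factors G k hdeg
  have eq : ZMod k ≃ Fin k := Fintype.equivOfCardEq (by rw [ZMod.card, Fintype.card_fin])
  let H : ZMod k → SimpleGraph V := fun i => H0 (eq i)
  let f : V → V → Unit → ZMod k := fun v u _ => Classical.epsilon (fun i => (H i).Adj v u)
  refine ⟨f, ?_, ?_⟩
  · intro v u _
    show Classical.epsilon (fun i => (H i).Adj v u) = Classical.epsilon (fun i => (H i).Adj u v)
    congr 1
    funext i
    exact propext ⟨fun h => h.symm, fun h => h.symm⟩
  · have hf : ∀ v u, G.Adj v u → (H (f v u ())).Adj v u := by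
      intro v u h
      rw [← h2, SimpleGraph.iSup_adj] at h
      obtain ⟨i, hi⟩ := h
      exact Classical.epsilon_spec (p := fun i => (H i).Adj v u)
        ⟨eq.symm i, by simpa only [H, Equiv.apply_symm_apply] using hi⟩
    have hc : ∀ v i, (univ.filter (fun p : V × Unit => G.Adj v p.1 ∧ f v p.1 p.2 = i)).card ≤ 2 := by
      intro v i
      rw [← h1 (eq i) v]
      have h3 : ((univ.filter (fun p : V × Unit => G.Adj v p.1 ∧ f v p.1 p.2 = i)).image
          Prod.fst : Finset V) = (univ.filter (fun u => G.Adj v u ∧ f v u () = i)) := by
        ext u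
        rw [mem_image, mem_filter]
        constructor
        · rintro ⟨p, hp, rfl⟩
          exact ⟨mem_univ _, (mem_filter.1 hp).2⟩
        · rintro ⟨-, h⟩
          exact ⟨(u, ()), mem_filter.2 ⟨mem_univ _, h⟩, rfl⟩
      have h4 : Function.Injective (Prod.fst : V × Unit → V) := fun a b h => Prod.ext h rfl
      rw [← card_image_of_injective _ h4, h3, ← Set.ncard_coe_finset]
      refine Set.ncard_le_ncard ?_ (Set.toFinite _)
      intro u hu
      rw [mem_coe, mem_filter] at hu
      have h5 := hf v u hu.2.1
      rw [hu.2.2] at h5
      exact h5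
    intro v i
    by_contra hne
    have h3 : ∑ i, (univ.filter (fun p : V × Unit => G.Adj v p.1 ∧ f v p.1 p.2 = i)).card <
        ∑ _i : ZMod k, 2 :=
      sum_lt_sum (fun j _ => hc v j) ⟨i, mem_univ _, lt_of_le_of_ne (hc v i) hne⟩
    rw [sum_const, card_univ, ZMod.card, smul_eq_mul] at h3
    have h4 : (univ.filter (fun p : V × Unit => G.Adj v p.1)).card = 2 * k := by
      rw [← hdeg v]
      have h5 : G.neighborSet v = ((univ.filter (fun u => G.Adj v u) : Finset V) : Set V) := by
        ext u
        simp
      rw [h5, Set.ncard_coe_finset]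
      refine card_bij (fun p _ => p.1) ?_ ?_ ?_
      · intro p hp
        exact mem_filter.2 ⟨mem_univ _, (mem_filter.1 hp).2⟩
      · intro p _ q _ h
        exact Prod.ext h rfl
      · intro u hu
        exact ⟨(u, ()), mem_filter.2 ⟨mem_univ _, (mem_filter.1 hu).2⟩, rfl⟩
    have h5 := card_eq_sum_card_fiberwise (s := univ.filter (fun p : V × Unit => G.Adj v p.1))
      (t := (univ : Finset (ZMod k))) (f := fun p => f v p.1 p.2) (fun _ _ => mem_coe.2 (mem_univ _))
    rw [h4] at h5
    have h6 : ∀ i ∈ (univ : Finset (ZMod k)),
        ((univ.filter (fun p : V × Unit => G.Adj v p.1)).filter (fun p => f v p.1 p.2 = i)).card =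
        (univ.filter (fun p : V × Unit => G.Adj v p.1 ∧ f v p.1 p.2 = i)).card := by
      intro i _
      rw [filter_filter]
    rw [sum_congr rfl h6] at h5
    omega

open Classical in
/-- König on the bipartite double cover: any degree, doubled edges. -/
theorem col_dbl {V : Type} [Fintype V] (G : SimpleGraph V) (r : ℕ) [NeZero r]
    (hdeg : ∀ v, (G.neighborSet v).ncard = r) :
    ∃ f : V → V → Bool → ZMod r, (∀ v u e, f v u e = f u v e) ∧
      ∀ v i, (univ.filter (fun p : V × Bool => G.Adj v p.1 ∧ f v p.1 p.2 = i)).card = 2 := by
  have hrow : ∀ v, ∑ w, (if G.Adj v w then 1 else 0) = r := by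
    intro v
    rw [← card_filter, ← hdeg v]
    have h5 : G.neighborSet v = ((univ.filter (fun u => G.Adj v u) : Finset V) : Set V) := by
      ext u
      simp
    rw [h5, Set.ncard_coe_finset]
  have hcol : ∀ w, ∑ v, (if G.Adj v w then 1 else 0) = r := by
    intro w
    rw [← hrow w]
    refine sum_congr rfl fun v _ => ?_
    by_cases h : G.Adj v w
    · rw [if_pos h, if_pos h.symm]
    · rw [if_neg h, if_neg (fun h' => h h'.symm)]
  obtain ⟨σ0, hσ0⟩ := Pool.Agent.H150R2.ZSF.koenig r (fun v w => if G.Adj v w then 1 else 0) hrow hcol
  have eq : ZMod r ≃ Fin r := Fintype.equivOfCardEq (by rw [ZMod.card, Fintype.card_fin])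
  let σ : ZMod r → Equiv.Perm V := fun i => σ0 (eq i)
  have hσ : ∀ v w, (if G.Adj v w then 1 else 0) = ∑ i, (if σ i v = w then 1 else 0) := by
    intro v w
    have h1 : (if G.Adj v w then 1 else 0) = ∑ i, (if σ0 i v = w then 1 else 0) := hσ0 v w
    rw [h1]
    exact (Equiv.sum_comp eq (fun i => if σ0 i v = w then 1 else 0)).symm
  have hadj : ∀ i v, G.Adj v (σ i v) := by
    intro i v
    by_contra h
    have h1 := hσ v (σ i v)
    rw [if_neg h] at h1
    have h2 := sum_eq_zero_iff.1 h1.symm i (mem_univ _)
    rw [if_pos rfl] at h2
    exact one_ne_zero h2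
  have huniq : ∀ i j v, σ i v = σ j v → i = j := by
    intro i j v h
    by_contra hij
    have h1 := hσ v (σ i v)
    rw [if_pos (hadj i v)] at h1
    have h2 : ∑ l ∈ ({i, j} : Finset (ZMod r)), (if σ l v = σ i v then 1 else 0) ≤
        ∑ l, (if σ l v = σ i v then 1 else 0) := sum_le_sum_of_subset (subset_univ _)
    rw [sum_pair hij, if_pos rfl, if_pos h.symm, ← h1] at h2
    omega
  have hex : ∀ v w, G.Adj v w → ∃ i, σ i v = w := by
    intro v w h
    by_contra hne
    push Not at hne
    have h1 := hσ v w
    rw [if_pos h] at h1
    have h2 : ∑ i, (if σ i v = w then 1 else 0) = 0 := sum_eq_zero fun i _ => if_neg (hne i)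
    rw [h2] at h1
    exact one_ne_zero h1
  let c : V → V → ZMod r := fun v w => Classical.epsilon (fun i => σ i v = w)
  have hc : ∀ v w, G.Adj v w → σ (c v w) v = w := by
    intro v w h
    exact Classical.epsilon_spec (p := fun i => σ i v = w) (hex v w h)
  have hc2 : ∀ i v, c v (σ i v) = i := by
    intro i v
    exact huniq _ _ v (hc v _ (hadj i v))
  have o : V ≃ Fin (Fintype.card V) := Fintype.equivFin V
  let f : V → V → Bool → ZMod r := fun v u e => if (o v < o u ↔ e = true) then c u v else c v u
  refine ⟨f, ?_, ?_⟩
  · intro v u e
    by_cases hvu : v = u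
    · rw [hvu]
    · have h1 : o v ≠ o u := fun h => hvu (o.injective h)
      show (if (o v < o u ↔ e = true) then c u v else c v u) =
        if (o u < o v ↔ e = true) then c v u else c u v
      rcases lt_or_gt_of_ne h1 with h2 | h2
      · have h3 : ¬ o u < o v := not_lt_of_gt h2
        cases e
        · rw [if_neg (by simp [h2]), if_pos (by simp [h3])]
        · rw [if_pos (by simp [h2]), if_neg (by simp [h3])]
      · have h3 : ¬ o v < o u := not_lt_of_gt h2
        cases e
        · rw [if_pos (by simp [h3]), if_neg (by simp [h2])]
        · rw [if_neg (by simp [h3]), if_pos (by simp [h2])]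
  · intro v i
    let u1 : V := σ i v
    let u2 : V := (σ i).symm v
    let e1 : Bool := !decide (o v < o u1)
    let e2 : Bool := decide (o v < o u2)
    have hset : (univ.filter (fun p : V × Bool => G.Adj v p.1 ∧ f v p.1 p.2 = i)) =
        {(u1, e1), (u2, e2)} := by
      ext ⟨u, e⟩
      rw [mem_filter, mem_insert, mem_singleton]
      constructor
      · rintro ⟨-, h1, h2⟩
        have h1' : G.Adj v u := h1
        have h2' : (if (o v < o u ↔ e = true) then c u v else c v u) = i := h2
        by_cases h3 : (o v < o u ↔ e = true)
        · rw [if_pos h3] at h2'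
          right
          have h4 : σ i u = v := by
            rw [← h2']
            exact hc u v h1'.symm
          have h5 : u = u2 := by
            show u = (σ i).symm v
            rw [← h4, Equiv.symm_apply_apply]
          refine Prod.ext h5 ?_
          show e = decide (o v < o u2)
          rw [← h5]
          cases e
          · simp only [Bool.false_eq_true, iff_false] at h3
            simp [h3]
          · simp only [iff_true] at h3
            simp [h3]
        · rw [if_neg h3] at h2'
          left
          have h4 : u = u1 := by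
            show u = σ i v
            rw [← h2']
            exact (hc v u h1').symm
          refine Prod.ext h4 ?_
          show e = !decide (o v < o u1)
          rw [← h4]
          cases e
          · simp only [Bool.false_eq_true, iff_false, not_not] at h3
            simp [h3]
          · simp only [iff_true] at h3
            simp [h3]
      · rintro (h | h)
        · have hu : u = u1 := congrArg Prod.fst h
          have he : e = e1 := congrArg Prod.snd h
          refine ⟨mem_univ _, ?_, ?_⟩
          · show G.Adj v u
            rw [hu]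
            exact hadj i v
          · show (if (o v < o u ↔ e = true) then c u v else c v u) = i
            rw [hu, he, if_neg]
            · exact hc2 i v
            · show ¬ (o v < o u1 ↔ (!decide (o v < o u1)) = true)
              by_cases h3 : o v < o u1 <;> simp [h3]
        · have hu : u = u2 := congrArg Prod.fst h
          have he : e = e2 := congrArg Prod.snd h
          have h4 : σ i u2 = v := Equiv.apply_symm_apply _ _
          refine ⟨mem_univ _, ?_, ?_⟩
          · show G.Adj v u
            rw [hu]
            have h3 := hadj i u2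
            rw [h4] at h3
            exact h3.symm
          · show (if (o v < o u ↔ e = true) then c u v else c v u) = i
            rw [hu, he, if_pos]
            · have h3 := hc2 i u2
              rw [h4] at h3
              exact h3
            · show (o v < o u2 ↔ (decide (o v < o u2)) = true)
              by_cases h3 : o v < o u2 <;> simp [h3]
    rw [hset, card_pair]
    intro h
    have h1 : u1 = u2 := congrArg Prod.fst h
    have h2 : e1 = e2 := congrArg Prod.snd h
    have h3 : (!decide (o v < o u1)) = decide (o v < o u2) := h2
    rw [← h1] at h3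
    by_cases h4 : o v < o u1 <;> simp [h4] at h3

end Pool.Agent.Q251.LA
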