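import Mathlib

/-!
# The Moore bound for components
-/

set_option autoImplicit false

namespace Pool.Agent.Q251.LA

open Finset SimpleGraph

/-- Two different paths with the same ends contain a cycle. -/
theorem cycle_of_paths {V : Type} {Q : SimpleGraph V} {v w : V} (p q : Q.Walk v w)
    (hp : p.IsPath) (hq : q.IsPath) (h : p ≠ q) :
    ∃ (x : V) (c : Q.Walk x x), c.IsCycle ∧ c.length ≤ p.length + q.length := by
  classical
  let E : Set (Sym2 V) := {e | e ∈ p.edges ∨ e ∈ q.edges}
  let H : SimpleGraph V := SimpleGraph.fromEdgeSet E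
  have hHQ : H ≤ Q := by
    intro a b hab
    rw [SimpleGraph.fromEdgeSet_adj] at hab
    rcases hab.1 with h1 | h1
    · exact p.adj_of_mem_edges h1
    · exact q.adj_of_mem_edges h1
  have hpH : ∀ e ∈ p.edges, e ∈ H.edgeSet := by
    intro e he
    rw [SimpleGraph.edgeSet_fromEdgeSet]
    refine ⟨Or.inl he, ?_⟩
    exact fun h1 => Q.not_isDiag_of_mem_edgeSet (p.edges_subset_edgeSet he) h1
  have hqH : ∀ e ∈ q.edges, e ∈ H.edgeSet := by
    intro e he
    rw [SimpleGraph.edgeSet_fromEdgeSet]
    refine ⟨Or.inr he, ?_⟩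
    exact fun h1 => Q.not_isDiag_of_mem_edgeSet (q.edges_subset_edgeSet he) h1
  have hna : ¬ H.IsAcyclic := by
    intro hac
    have h1 : (⟨p.transfer H hpH, hp.transfer hpH⟩ : H.Path v w) =
        ⟨q.transfer H hqH, hq.transfer hqH⟩ := hac.path_unique _ _
    have h2 : p.transfer H hpH = q.transfer H hqH := congrArg Subtype.val h1
    have h3 := congrArg SimpleGraph.Walk.support h2
    rw [SimpleGraph.Walk.support_transfer, SimpleGraph.Walk.support_transfer] at h3
    exact h (SimpleGraph.Walk.ext_support h3)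
  rw [SimpleGraph.IsAcyclic] at hna
  push Not at hna
  obtain ⟨x, c, hc⟩ := hna
  refine ⟨x, c.mapLe hHQ, hc.mapLe hHQ, ?_⟩
  rw [SimpleGraph.Walk.length_mapLe, ← SimpleGraph.Walk.length_edges]
  have h1 : c.edges.toFinset ⊆ p.edges.toFinset ∪ q.edges.toFinset := by
    intro e he
    rw [List.mem_toFinset] at he
    have h2 := c.edges_subset_edgeSet he
    rw [SimpleGraph.edgeSet_fromEdgeSet] at h2
    rw [mem_union, List.mem_toFinset, List.mem_toFinset]
    exact h2.1
  have h2 := card_le_card h1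
  rw [List.toFinset_card_of_nodup hc.isTrail.edges_nodup] at h2
  have h3 := List.toFinset_card_le p.edges
  have h4 := List.toFinset_card_le q.edges
  have h5 := card_union_le p.edges.toFinset q.edges.toFinset
  rw [SimpleGraph.Walk.length_edges] at h3 h4
  omega

/-- If `w` has two neighbours at distance at most `i` from `v` and `w` has distance at least `i` from
`v`, then there is a cycle of length at most `2 (i + 1)`. -/
theorem two_nbrs {V : Type} {Q : SimpleGraph V} {v w a b : V} {i : ℕ} (hab : a ≠ b)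
    (ha : Q.Adj a w) (hb : Q.Adj b w) (hra : Q.Reachable v a) (hrb : Q.Reachable v b)
    (hda : Q.dist v a ≤ i) (hdb : Q.dist v b ≤ i) (hw : i ≤ Q.dist v w) :
    ∃ (x : V) (c : Q.Walk x x), c.IsCycle ∧ c.length ≤ 2 * (i + 1) := by
  classical
  have key : ∀ a : V, Q.Adj a w → Q.Reachable v a → Q.dist v a ≤ i →
      ∃ p : Q.Walk v a, p.IsPath ∧ p.length ≤ i ∧ w ∉ p.support := by
    intro a ha hra hda
    obtain ⟨p, hp, hl⟩ := hra.exists_path_of_dist
    refine ⟨p, hp, by omega, ?_⟩
    intro hws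
    have h1 := SimpleGraph.dist_le (p.takeUntil w hws)
    have h2 : (p.takeUntil w hws).length + (p.dropUntil w hws).length = p.length := by
      rw [← SimpleGraph.Walk.length_append, SimpleGraph.Walk.take_spec]
    have h3 : (p.dropUntil w hws).length ≠ 0 := by
      intro h4
      exact ha.ne (SimpleGraph.Walk.eq_of_length_eq_zero h4).symm
    omega
  obtain ⟨p, hp, hpl, hpw⟩ := key a ha hra hda
  obtain ⟨q, hq, hql, hqw⟩ := key b hb hrb hdb
  have h1 : (p.concat ha).IsPath := hp.concat hpw ha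
  have h2 : (q.concat hb).IsPath := hq.concat hqw hb
  have h3 : p.concat ha ≠ q.concat hb := by
    intro h4
    have h5 := congrArg SimpleGraph.Walk.penultimate h4
    rw [SimpleGraph.Walk.penultimate_concat, SimpleGraph.Walk.penultimate_concat] at h5
    exact hab h5
  obtain ⟨x, c, hc, hl⟩ := cycle_of_paths _ _ h1 h2 h3
  refine ⟨x, c, hc, ?_⟩
  rw [SimpleGraph.Walk.length_concat, SimpleGraph.Walk.length_concat] at hl
  omega

open Classical in
/-- The sphere of radius `i`. -/
noncomputable def sph {V : Type} [Fintype V] (Q : SimpleGraph V) (v : V) (i : ℕ) : Finset V :=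
  univ.filter (fun w => Q.Reachable v w ∧ Q.dist v w = i)

open Classical in
/-- **Layers grow.** -/
theorem sph_succ {V : Type} [Fintype V] (Q : SimpleGraph V) (δ d : ℕ)
    (hδ : ∀ v, δ ≤ (Q.neighborSet v).ncard)
    (hg : ∀ (v : V) (c : Q.Walk v v), c.IsCycle → 2 * d < c.length) (v : V) (i : ℕ)
    (hi : i + 1 ≤ d) :
    (sph Q v i).card * (if i = 0 then δ else δ - 1) ≤ (sph Q v (i + 1)).card := by
  -- the neighbours of `w` in the next layer
  let nx : V → Finset V := fun w => (sph Q v (i + 1)).filter (fun u => Q.Adj w u)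
  have hmem : ∀ (w : V) (j : ℕ), w ∈ sph Q v j ↔ Q.Reachable v w ∧ Q.dist v w = j := by
    intro w j
    rw [sph, mem_filter]
    exact ⟨fun h => h.2, fun h => ⟨mem_univ _, h⟩⟩
  have h1 : ∀ w ∈ sph Q v i, (if i = 0 then δ else δ - 1) ≤ (nx w).card := by
    intro w hw
    obtain ⟨hw1, hw2⟩ := (hmem w i).1 hw
    let nb : Finset V := univ.filter (fun u => Q.Adj w u)
    have hnb : δ ≤ nb.card := by
      have h2 := hδ w
      have h3 : Q.neighborSet w = (nb : Set V) := by
        ext u
        simp [nb]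
      rw [h3, Set.ncard_coe_finset] at h2
      exact h2
    let lo : Finset V := nb.filter (fun u => Q.dist v u ≤ i)
    have hlo : lo.card ≤ (if i = 0 then 0 else 1) := by
      by_cases hi0 : i = 0
      · rw [if_pos hi0, Nat.le_zero, card_eq_zero]
        rw [filter_eq_empty_iff]
        intro u hu h2
        have h3 : Q.Adj w u := (mem_filter.1 hu).2
        rw [hi0] at hw2 h2
        have h4 : v = w := hw1.dist_eq_zero_iff.1 hw2
        have h5 : v = u := (hw1.trans h3.reachable).dist_eq_zero_iff.1 (Nat.le_zero.1 h2)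
        exact h3.ne (h4.symm.trans h5)
      · rw [if_neg hi0, card_le_one]
        intro a ha b hb
        by_contra hab
        obtain ⟨ha1, ha2⟩ := mem_filter.1 ha
        obtain ⟨hb1, hb2⟩ := mem_filter.1 hb
        have ha3 : Q.Adj w a := (mem_filter.1 ha1).2
        have hb3 : Q.Adj w b := (mem_filter.1 hb1).2
        obtain ⟨x, c, hc, hl⟩ := two_nbrs hab ha3.symm hb3.symm (hw1.trans ha3.reachable)
          (hw1.trans hb3.reachable) ha2 hb2 hw2.ge
        have h2 := hg x c hc
        omega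
    have hsub : nb \ lo ⊆ nx w := by
      intro u hu
      obtain ⟨hu1, hu2⟩ := mem_sdiff.1 hu
      have hu3 : Q.Adj w u := (mem_filter.1 hu1).2
      refine mem_filter.2 ⟨(hmem u (i + 1)).2 ⟨hw1.trans hu3.reachable, ?_⟩, hu3⟩
      have h2 : ¬ Q.dist v u ≤ i := fun h3 => hu2 (mem_filter.2 ⟨hu1, h3⟩)
      have h3 : Q.dist v u ≤ Q.dist v w + 1 := by
        obtain ⟨p, hp⟩ := hw1.exists_walk_length_eq_dist
        have h4 := SimpleGraph.dist_le (p.concat hu3)
        rw [SimpleGraph.Walk.length_concat, hp] at h4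
        exact h4
      omega
    have h2 := card_le_card hsub
    have h3 : (nb \ lo).card = nb.card - lo.card := card_sdiff_of_subset (filter_subset _ _)
    rw [h3] at h2
    split_ifs at hlo ⊢ <;> omega
  have h2 : ∀ w ∈ sph Q v i, ∀ w' ∈ sph Q v i, w ≠ w' → Disjoint (nx w) (nx w') := by
    intro w hw w' hw' hne
    rw [Finset.disjoint_left]
    intro u hu hu'
    obtain ⟨hw1, hw2⟩ := (hmem w i).1 hw
    obtain ⟨hw3, hw4⟩ := (hmem w' i).1 hw'
    obtain ⟨hu1, hu2⟩ := mem_filter.1 hu
    have hu3 := (mem_filter.1 hu').2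
    obtain ⟨hu4, hu5⟩ := (hmem u (i + 1)).1 hu1
    obtain ⟨x, c, hc, hl⟩ := two_nbrs hne hu2 hu3 hw1 hw3 hw2.le hw4.le (by omega : i ≤ Q.dist v u)
    have h3 := hg x c hc
    omega
  have h3 : (sph Q v i).biUnion nx ⊆ sph Q v (i + 1) := by
    intro u hu
    obtain ⟨w, _, h4⟩ := mem_biUnion.1 hu
    exact (mem_filter.1 h4).1
  have h4 := card_le_card h3
  rw [card_biUnion h2] at h4
  refine le_trans ?_ h4
  rw [← smul_eq_mul, ← sum_const]
  exact sum_le_sum h1

/-- the Moore number `1 + δ ∑_{i < d} (δ - 1)^i` -/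
def moore (δ d : ℕ) : ℕ := 1 + δ * ∑ i ∈ range d, (δ - 1) ^ i

/-- **The Moore bound** for the size of the component of `v`. -/
theorem moore_le {V : Type} [Finite V] (Q : SimpleGraph V) (δ d : ℕ)
    (hδ : ∀ v, δ ≤ (Q.neighborSet v).ncard)
    (hg : ∀ (v : V) (c : Q.Walk v v), c.IsCycle → 2 * d < c.length) (v : V) :
    moore δ d ≤ {w | Q.Reachable v w}.ncard := by
  classical
  have := Fintype.ofFinite V
  have hmem : ∀ (w : V) (j : ℕ), w ∈ sph Q v j ↔ Q.Reachable v w ∧ Q.dist v w = j := by
    intro w j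
    rw [sph, mem_filter]
    exact ⟨fun h => h.2, fun h => ⟨mem_univ _, h⟩⟩
  have h0 : 1 ≤ (sph Q v 0).card := by
    rw [Nat.one_le_iff_ne_zero, card_ne_zero]
    exact ⟨v, (hmem v 0).2 ⟨SimpleGraph.Reachable.refl _, SimpleGraph.dist_self⟩⟩
  have h1 : ∀ i, i + 1 ≤ d → δ * (δ - 1) ^ i ≤ (sph Q v (i + 1)).card := by
    intro i
    induction i with
    | zero =>
      intro hd
      have h2 := sph_succ Q δ d hδ hg v 0 hd
      rw [if_pos rfl] at h2
      rw [pow_zero, mul_one]
      calc δ = 1 * δ := (one_mul _).symm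
        _ ≤ (sph Q v 0).card * δ := Nat.mul_le_mul_right _ h0
        _ ≤ _ := h2
    | succ i ih =>
      intro hd
      have h2 := sph_succ Q δ d hδ hg v (i + 1) hd
      rw [if_neg (by omega)] at h2
      calc δ * (δ - 1) ^ (i + 1) = (δ * (δ - 1) ^ i) * (δ - 1) := by ring
        _ ≤ (sph Q v (i + 1)).card * (δ - 1) := Nat.mul_le_mul_right _ (ih (by omega))
        _ ≤ _ := h2
  have h2 : {w | Q.Reachable v w} = ((univ.filter (fun w => Q.Reachable v w) : Finset V) : Set V) := by
    ext w
    simp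
  have h3 : (range (d + 1)).biUnion (sph Q v) ⊆ univ.filter (fun w => Q.Reachable v w) := by
    intro w hw
    obtain ⟨i, _, h4⟩ := mem_biUnion.1 hw
    exact mem_filter.2 ⟨mem_univ _, ((hmem w i).1 h4).1⟩
  have h4 := card_le_card h3
  rw [card_biUnion, sum_range_succ'] at h4
  · rw [h2, Set.ncard_coe_finset, moore, mul_sum]
    refine le_trans ?_ h4
    rw [add_comm 1]
    refine Nat.add_le_add (sum_le_sum fun i hi => h1 i ?_) h0
    have := mem_range.1 hi
    omega
  · intro i _ j _ hij
    show Disjoint (sph Q v i) (sph Q v j)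
    rw [Finset.disjoint_left]
    intro w h5 h6
    exact hij (((hmem w i).1 h5).2.symm.trans ((hmem w j).1 h6).2)

end Pool.Agent.Q251.LA
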