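import Pool.Agent.Q251.LA.Core
import Pool.Agent.Q251.LA.Moore

/-!
# Two-factorisations of blow-ups with large components
-/

set_option autoImplicit false

namespace Pool.Agent.Q251.LA

open Finset SimpleGraph

open Classical in
/-- **Two-factorisation with large components.** -/
theorem fac {V E : Type} [Fintype V] [Fintype E] {G : SimpleGraph V} {K n m : ℕ} [NeZero K]
    [NeZero n] [NeZero m] (hm : m = Fintype.card E * n) (f : V → V → E → ZMod K)
    (hf : ∀ v u e, f v u e = f u v e)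
    (hcount : ∀ v i, (univ.filter (fun p : V × E => G.Adj v p.1 ∧ f v p.1 p.2 = i)).card = 2)
    (δ d : ℕ) (hδ : δ * Fintype.card E ≤ 2 * min m K)
    (hg : ∀ (v : V) (c : G.Walk v v), c.IsCycle → 2 * d < c.length) :
    ∃ H : (ZMod K × Fin n) → SimpleGraph (V × Fin m), (∀ c x, ((H c).neighborSet x).ncard = 2) ∧
      (⨆ c, H c) = blow G m ∧ (∀ c c', c ≠ c' → ∀ x y, (H c).Adj x y → ¬ (H c').Adj x y) ∧
      ∀ c x, moore δ d * m ≤ {y | (H c).Reachable x y}.ncard := by
  have hE : 0 < Fintype.card E := by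
    rcases Nat.eq_zero_or_pos (Fintype.card E) with h | h
    · rw [h, zero_mul] at hm
      exact absurd hm (NeZero.ne m)
    · exact h
  have hmpos : 0 < m := Nat.pos_of_ne_zero (NeZero.ne m)
  have hKpos : 0 < K := Nat.pos_of_ne_zero (NeZero.ne K)
  have e : (Fin m × Fin m) ≃ (E × Fin m × Fin n) := by
    refine Fintype.equivOfCardEq ?_
    rw [Fintype.card_prod, Fintype.card_prod, Fintype.card_prod, Fintype.card_fin,
      Fintype.card_fin]
    nth_rewrite 1 [hm]
    ring
  let f0 : V → V → Fin m × Fin m → ZMod K × Fin n := fun v u ab =>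
    (f v u (e ab).1 + (((e ab).2.1 : ℕ) : ZMod K), (e ab).2.2)
  have hf0 : ∀ v u ab, f0 v u ab = f0 u v ab := by
    intro v u ab
    simp only [f0, hf v u]
  have hdeg : ∀ v c, (univ.filter (fun p : V × (Fin m × Fin m) => G.Adj v p.1 ∧
      f0 v p.1 p.2 = c)).card = 2 * m := by
    intro v c
    have h1 : ((univ : Finset (Fin m)).sigma (fun s => univ.filter (fun p : V × E => G.Adj v p.1 ∧
        f v p.1 p.2 = c.1 - ((s : ℕ) : ZMod K)))).card = 2 * m := by
      rw [card_sigma, sum_congr rfl (fun s _ => hcount v _), sum_const, card_univ,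
        Fintype.card_fin, smul_eq_mul, mul_comm]
    rw [← h1]
    refine card_bij (fun p _ => ⟨(e p.2).2.1, (p.1, (e p.2).1)⟩) ?_ ?_ ?_
    · intro p hp
      obtain ⟨-, h2, h3⟩ := mem_filter.1 hp
      refine mem_sigma.2 ⟨mem_univ _, mem_filter.2 ⟨mem_univ _, h2, ?_⟩⟩
      have h4 : f v p.1 (e p.2).1 + (((e p.2).2.1 : ℕ) : ZMod K) = c.1 := congrArg Prod.fst h3
      rw [← h4]
      ring
    · intro p hp q hq h2
      obtain ⟨-, h3, h4⟩ := mem_filter.1 hp
      obtain ⟨-, h5, h6⟩ := mem_filter.1 hq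
      have h7 : (e p.2).2.1 = (e q.2).2.1 ∧ (p.1, (e p.2).1) = (q.1, (e q.2).1) := by
        have := Sigma.mk.inj_iff.1 h2
        exact ⟨this.1, eq_of_heq this.2⟩
      have h8 := Prod.ext_iff.1 h7.2
      have h9 : (e p.2).2.2 = (e q.2).2.2 := (congrArg Prod.snd h4).trans (congrArg Prod.snd h6).symm
      refine Prod.ext h8.1 (e.injective ?_)
      exact Prod.ext h8.2 (Prod.ext h7.1 h9)
    · rintro ⟨s, u, ε⟩ hx
      obtain ⟨-, h2⟩ := mem_sigma.1 hx
      obtain ⟨-, h3, h4⟩ := mem_filter.1 h2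
      refine ⟨(u, e.symm (ε, s, c.2)), mem_filter.2 ⟨mem_univ _, h3, ?_⟩, ?_⟩
      · simp only [f0, Equiv.apply_symm_apply]
        refine Prod.ext ?_ rfl
        show f v u ε + ((s : ℕ) : ZMod K) = c.1
        have h5 : f v u ε = c.1 - ((s : ℕ) : ZMod K) := h4
        rw [h5]
        ring
      · simp only [Equiv.apply_symm_apply]
  obtain ⟨H, h1, h2, h3, h4⟩ := core (G := G) f0 hf0 (fun v c => by convert hdeg v c)
  refine ⟨H, h1, h2, h3, ?_⟩
  intro c x
  -- the support
  have hle : sup0 G m f0 c ≤ G := by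
    intro a b hab
    rw [sup0, SimpleGraph.fromRel_adj] at hab
    rcases hab.2 with h5 | h5
    · exact h5.1
    · exact h5.1.symm
  have hdg : ∀ v, δ ≤ ((sup0 G m f0 c).neighborSet v).ncard := by
    intro v
    let I : Finset (ZMod K) := (univ : Finset (Fin (min m K))).image
      (fun s : Fin (min m K) => c.1 - ((s : ℕ) : ZMod K))
    have hI : I.card = min m K := by
      rw [card_image_of_injective, card_univ, Fintype.card_fin]
      intro s s' h5
      have h6 : ((s : ℕ) : ZMod K) = ((s' : ℕ) : ZMod K) := by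
        have h7 : c.1 - ((s : ℕ) : ZMod K) = c.1 - ((s' : ℕ) : ZMod K) := h5
        exact (sub_right_inj).1 h7
      rw [ZMod.natCast_eq_natCast_iff'] at h6
      have h7 : (s : ℕ) < K := lt_of_lt_of_le s.2 (min_le_right _ _)
      have h8 : (s' : ℕ) < K := lt_of_lt_of_le s'.2 (min_le_right _ _)
      rw [Nat.mod_eq_of_lt h7, Nat.mod_eq_of_lt h8] at h6
      exact Fin.ext h6
    let N : Finset V := univ.filter (fun u => (sup0 G m f0 c).Adj v u)
    have hN : (sup0 G m f0 c).neighborSet v = (N : Set V) := by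
      ext u
      simp [N]
    have hA : (I.biUnion (fun i => univ.filter (fun p : V × E => G.Adj v p.1 ∧
        f v p.1 p.2 = i))).card = 2 * min m K := by
      rw [card_biUnion]
      · rw [sum_congr rfl (fun i _ => hcount v i), sum_const, smul_eq_mul, hI, mul_comm]
      · intro i _ j _ hij
        show Disjoint (univ.filter (fun p : V × E => G.Adj v p.1 ∧ f v p.1 p.2 = i))
          (univ.filter (fun p : V × E => G.Adj v p.1 ∧ f v p.1 p.2 = j))
        rw [Finset.disjoint_left]
        intro p hp hp'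
        exact hij ((mem_filter.1 hp).2.2.symm.trans (mem_filter.1 hp').2.2)
    have hsub : (I.biUnion (fun i => univ.filter (fun p : V × E => G.Adj v p.1 ∧
        f v p.1 p.2 = i))) ⊆ N ×ˢ (univ : Finset E) := by
      intro p hp
      obtain ⟨i, hi, hp⟩ := mem_biUnion.1 hp
      obtain ⟨s, _, rfl⟩ := mem_image.1 hi
      obtain ⟨-, h5, h6⟩ := mem_filter.1 hp
      refine mem_product.2 ⟨mem_filter.2 ⟨mem_univ _, ?_⟩, mem_univ _⟩
      rw [sup0, SimpleGraph.fromRel_adj]
      refine ⟨h5.ne, Or.inl ⟨h5, e.symm (p.2, ⟨s, lt_of_lt_of_le s.2 (min_le_left _ _)⟩, c.2), ?_⟩⟩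
      simp only [f0, Equiv.apply_symm_apply]
      refine Prod.ext ?_ rfl
      show f v p.1 p.2 + ((s : ℕ) : ZMod K) = c.1
      rw [h6]
      ring
    have h5 := card_le_card hsub
    rw [hA, card_product, card_univ] at h5
    rw [hN, Set.ncard_coe_finset]
    exact Nat.le_of_mul_le_mul_right (hδ.trans h5) hE
  have hgi : ∀ (v : V) (w : (sup0 G m f0 c).Walk v v), w.IsCycle → 2 * d < w.length := by
    intro v w hw
    have h5 := hg v (w.mapLe hle) (hw.mapLe hle)
    rwa [SimpleGraph.Walk.length_mapLe] at h5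
  have h5 := moore_le (sup0 G m f0 c) δ d hdg hgi x.1
  have h6 : ({w | (sup0 G m f0 c).Reachable x.1 w} ×ˢ (Set.univ : Set (Fin m))) ⊆
      {y | (H c).Reachable x y} := by
    rintro ⟨w, i⟩ ⟨h7, -⟩
    exact h4 c x (w, i) h7
  have h7 := Set.ncard_le_ncard h6 (Set.toFinite _)
  rw [Set.ncard_prod, Set.ncard_univ, Nat.card_eq_fintype_card, Fintype.card_fin] at h7
  exact (Nat.mul_le_mul_right m h5).trans h7

end Pool.Agent.Q251.LA
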