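import Mathlib

/-!
# A pairing inside even classes
-/

set_option autoImplicit false

namespace Pool.Agent.Q251.LA

open Finset

variable {D K : Type} [DecidableEq D] [DecidableEq K]

/-- If all the classes of `cls` in `S` are even, then `S` has a pairing inside the classes. -/
theorem pairing (S : Finset D) (cls : D → K)
    (h : ∀ k, Even (S.filter (fun d => cls d = k)).card) :
    ∃ (τ : D → D) (r : D → Bool), (∀ d ∈ S, τ d ∈ S) ∧ (∀ d ∈ S, τ (τ d) = d) ∧
      (∀ d ∈ S, cls (τ d) = cls d) ∧ ∀ d ∈ S, r (τ d) = !r d := by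
  classical
  choose q hq using h
  have h2 : ∀ k, Fintype.card {d // d ∈ S.filter (fun d => cls d = k)} =
      Fintype.card (Fin (q k) × Bool) := by
    intro k
    rw [Fintype.card_coe, hq, Fintype.card_prod, Fintype.card_fin, Fintype.card_bool]
    ring
  have e : ∀ k, {d // d ∈ S.filter (fun d => cls d = k)} ≃ (Fin (q k) × Bool) := fun k =>
    Fintype.equivOfCardEq (h2 k)
  let τ : D → D := fun d => if h : d ∈ S then
    ((e (cls d)).symm ((e (cls d) ⟨d, mem_filter.2 ⟨h, rfl⟩⟩).1,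
      !(e (cls d) ⟨d, mem_filter.2 ⟨h, rfl⟩⟩).2) : D) else d
  let r : D → Bool := fun d => if h : d ∈ S then (e (cls d) ⟨d, mem_filter.2 ⟨h, rfl⟩⟩).2 else false
  have hτ : ∀ (k : K) (d : D) (h : d ∈ S.filter (fun d => cls d = k)),
      τ d = ((e k).symm ((e k ⟨d, h⟩).1, !(e k ⟨d, h⟩).2) : D) := by
    intro k d h
    obtain ⟨h3, rfl⟩ := mem_filter.1 h
    simp only [τ, dif_pos h3]
  have hr : ∀ (k : K) (d : D) (h : d ∈ S.filter (fun d => cls d = k)),
      r d = (e k ⟨d, h⟩).2 := by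
    intro k d h
    obtain ⟨h3, rfl⟩ := mem_filter.1 h
    simp only [r, dif_pos h3]
  have hmem : ∀ (k : K) (d : D) (h : d ∈ S.filter (fun d => cls d = k)),
      τ d ∈ S.filter (fun d => cls d = k) := by
    intro k d h
    rw [hτ k d h]
    exact ((e k).symm _).2
  refine ⟨τ, r, ?_, ?_, ?_, ?_⟩
  · intro d hd
    exact (mem_filter.1 (hmem (cls d) d (mem_filter.2 ⟨hd, rfl⟩))).1
  · intro d hd
    have h3 : d ∈ S.filter (fun d' => cls d' = cls d) := mem_filter.2 ⟨hd, rfl⟩
    have h4 := hmem (cls d) d h3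
    have h5 : (⟨τ d, h4⟩ : {x // x ∈ S.filter (fun d' => cls d' = cls d)}) =
        (e (cls d)).symm ((e (cls d) ⟨d, h3⟩).1, !(e (cls d) ⟨d, h3⟩).2) :=
      Subtype.ext (hτ (cls d) d h3)
    rw [hτ (cls d) (τ d) h4, h5, Equiv.apply_symm_apply, Bool.not_not]
    simp
  · intro d hd
    exact (mem_filter.1 (hmem (cls d) d (mem_filter.2 ⟨hd, rfl⟩))).2
  · intro d hd
    have h3 : d ∈ S.filter (fun d' => cls d' = cls d) := mem_filter.2 ⟨hd, rfl⟩
    have h4 := hmem (cls d) d h3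
    have h5 : (⟨τ d, h4⟩ : {x // x ∈ S.filter (fun d' => cls d' = cls d)}) =
        (e (cls d)).symm ((e (cls d) ⟨d, h3⟩).1, !(e (cls d) ⟨d, h3⟩).2) :=
      Subtype.ext (hτ (cls d) d h3)
    rw [hr (cls d) (τ d) h4, hr (cls d) d h3, h5, Equiv.apply_symm_apply]

/-- A finite set with a fixed-point-free involution is even. -/
theorem even_of_inv {D : Type} (A : Finset D) (ι : D → D) (h1 : ∀ d ∈ A, ι d ∈ A)
    (h2 : ∀ d, ι (ι d) = d) (h3 : ∀ d, ι d ≠ d) : Even A.card := by
  have h4 : ∑ d ∈ A, (1 : ZMod 2) = 0 := by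
    refine sum_involution (fun d _ => ι d) ?_ ?_ ?_ ?_
    · intro a _
      decide
    · intro a _ _
      exact h3 a
    · intro a ha
      exact h1 a ha
    · intro a _
      exact h2 a
  rw [sum_const, nsmul_eq_mul, mul_one] at h4
  exact (ZMod.natCast_eq_zero_iff_even).1 h4

end Pool.Agent.Q251.LA
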